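import Pool.Agent.Helper330.CSF.Defs
import Pool.Agent.Helper330.CST.P_treebase
import Pool.Agent.Helper330.CST.P_t6
import Pool.Agent.Helper330.CST.P_nopc

set_option autoImplicit false
set_option linter.all false

namespace Pool.Agent.Helper330.CSF

open Set TopologicalSpace Pool.Agent.Helper330.CST

theorem coh_of {e : W2 → W2 → Prop}
    (h : ∀ a b, a < b → ∃ F : Finset W2, ∀ x, x < a ∧ x ∉ F → (e a x ↔ e b x)) : Coh e := by
  intro a b hab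
  obtain ⟨F, hF⟩ := h a b hab
  refine F.finite_toSet.subset fun x hx => ?_
  by_contra hxF
  exact hx.2 (hF x ⟨hx.1, hxF⟩)

theorem sous_of {e : W2 → W2 → Prop}
    (h : ∀ A : W2 → Finset W2 → Prop, (∀ a, ∃ b F, a < b ∧ A b F) →
      ∃ b F c G, b < c ∧ A b F ∧ A c G ∧
        ∀ x, x < b → ((e b x ↔ x ∈ F) ↔ (e c x ↔ x ∈ G))) : Sous e := by
  intro A hA
  obtain ⟨b, F, c, G, hbc, ⟨s, hs, hsb, hsF⟩, ⟨t, ht, htc, htG⟩, hx⟩ :=
    h (fun b F => ∃ t ∈ A, t.ht = b ∧ ∀ x, x < b → (x ∈ F ↔ ¬ (x ∈ t.val ↔ e b x))) (by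
      intro a
      obtain ⟨t, ht, hat⟩ := hA a
      refine ⟨t.ht, t.fin.toFinset, hat, t, ht, rfl, fun x hx => ?_⟩
      rw [Set.Finite.mem_toFinset]
      exact ⟨fun h => h.2, fun h => ⟨hx, h⟩⟩)
  refine ⟨s, hs, t, ht, ?_⟩
  have hlt : s.ht < t.ht := by rw [hsb, htc]; exact hbc
  have hle : s ≤ t := by
    refine ⟨hlt.le, fun x hxs => ?_⟩
    have hxb : x < b := by rw [← hsb]; exact hxs
    have h1 := hsF x hxb
    have h2 := htG x (hxb.trans hbc)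
    have h3 := hx x hxb
    tauto
  exact lt_of_le_of_ne hle fun h => hlt.ne (by rw [h])

theorem example_of (h : CoherentSouslin) :
    ∃ (X : Type) (_ : TopologicalSpace X), T6Space X ∧
      (∃ B : Set (Set X), IsTopologicalBasis B ∧ ∅ ∉ B ∧
        (∀ U ∈ B, ∀ V ∈ B, U ⊆ V ∨ V ⊆ U ∨ Disjoint U V) ∧
        (∀ U ∈ B, ∀ S ⊆ B, S.Nonempty → (∀ W ∈ S, U ⊆ W) →
          ∃ W ∈ S, ∀ W' ∈ S, W' ⊆ W)) ∧
      ¬ ∃ B : Set (Set X), IsTopologicalBasis B ∧ ∀ x : X, {U ∈ B | x ∈ U}.Countable := by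
  obtain ⟨e, h1, h2⟩ := h
  have hc := coh_of h1
  have hS := sous_of h2
  exact ⟨Sp e, inferInstance, t6 hc hS, treebase hc, fun ⟨B, hB, hB'⟩ => nopc hc hS B hB hB'⟩

end Pool.Agent.Helper330.CSF
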