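import Mathlib

set_option autoImplicit false
set_option linter.all false

/-!
# Forcing a coherent Souslin tree on `ω₂`

A sentence of the forcing language of a preordered set `P` of conditions is represented by the
set of the conditions which force it. Negation, conjunction and universal quantification are the
primitive connectives, with their usual forcing clauses; the other connectives are defined from
them classically. A name for a subset of a ground model set `X` is a map sending `x : X` to the
set of the conditions attached to `x`.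
-/

namespace Pool.Agent.Helper330.CSF

open Set

universe u v w

section

variable {P : Type u} [Preorder P]

/-- `p` forces `not φ` iff no `q ≤ p` forces `φ`. -/
def fnot (φ : Set P) : Set P := {p | ∀ q ≤ p, q ∉ φ}

/-- `p` forces `φ and ψ` iff it forces both. -/
def fand (φ ψ : Set P) : Set P := {p | p ∈ φ ∧ p ∈ ψ}

/-- `p` forces `for all i, φ i` iff it forces every `φ i`. -/
def fall {ι : Sort v} (φ : ι → Set P) : Set P := {p | ∀ i, p ∈ φ i}

/-- `φ implies ψ` is `not (φ and not ψ)`. -/
def fimp (φ ψ : Set P) : Set P := fnot (fand φ (fnot ψ))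

/-- `φ if and only if ψ`. -/
def fiff (φ ψ : Set P) : Set P := fand (fimp φ ψ) (fimp ψ φ)

/-- `there is i with φ i` is `not for all i, not φ i`. -/
def fex {ι : Sort v} (φ : ι → Set P) : Set P := fnot (fall fun i => fnot (φ i))

/-- An absolute statement about ground model objects. -/
def fground (h : Prop) : Set P := {_p | h}

/-- `p` forces that the generic filter meets the set `N` of conditions:
the set of `r` lying below some member of `N` is dense below `p`. -/
def meets (N : Set P) : Set P := {p | ∀ q ≤ p, ∃ r ≤ q, ∃ s ∈ N, r ≤ s}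

/-- The relation named by `R` is a function from `X` to `Y`. -/
def IsFun {X : Type v} {Y : Type w} (R : X → Y → Set P) : Set P :=
  fand (fall fun x => fex fun y => meets (R x y))
    (fall fun x => fall fun y => fall fun y' =>
      fimp (fand (meets (R x y)) (meets (R x y'))) (fground (y = y')))

/-- The relation named by `R` is onto `Y`. -/
def IsOnto {X : Type v} {Y : Type w} (R : X → Y → Set P) : Set P :=
  fall fun y => fex fun x => meets (R x y)

end

/-- The well-ordered set of the ordinals below `ω₁`. -/
abbrev W1 : Type := (Cardinal.aleph 1 : Cardinal.{0}).ord.ToType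

/-- The well-ordered set of the ordinals below `ω₂`. -/
abbrev W2 : Type := (Cardinal.aleph 2 : Cardinal.{0}).ord.ToType

/-- There is a coherent Souslin tree of height `ω₂`: a sequence of sets `e a ⊆ a` (`a < ω₂`),
any two of them equal modulo a finite set below the smaller index, such that the tree of the
finite modifications of the `e a` (the nodes of height `a` are the symmetric differences of `e a`
and a finite set `F`) has this property: every family `A` of nodes `(a, F)` of unboundedly many
heights has two members one of which is an initial segment of the other. (The symmetric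
differences of `e b` and `F` and of `e c` and `G` agree at `x` if and only if
`(e b x ↔ x ∈ F) ↔ (e c x ↔ x ∈ G)`.) -/
def CoherentSouslin : Prop :=
  ∃ e : W2 → W2 → Prop,
    (∀ a b, a < b → ∃ F : Finset W2, ∀ x, x < a ∧ x ∉ F → (e a x ↔ e b x)) ∧
    ∀ A : W2 → Finset W2 → Prop, (∀ a, ∃ b F, a < b ∧ A b F) →
      ∃ b F c G, b < c ∧ A b F ∧ A c G ∧
        ∀ x, x < b → ((e b x ↔ x ∈ F) ↔ (e c x ↔ x ∈ G))

section

variable (P : Type u) [Preorder P]

/-- In the extension there is no function from the natural numbers onto the ground model `ω₁`;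
so the ground model `ω₁` is still the first uncountable cardinal. -/
def OmegaOnePreserved : Set P :=
  fnot (fex fun R : ℕ → W1 → Set P => fand (IsFun R) (IsOnto R))

/-- In the extension there is no function from the ground model `ω₁` onto the ground model
`ω₂`. -/
def OmegaTwoPreserved : Set P :=
  fnot (fex fun R : W1 → W2 → Set P => fand (IsFun R) (IsOnto R))

/-- `CoherentSouslin` holds in the extension. -/
def CoherentSouslinHolds : Set P :=
  fex fun e : W2 → W2 → Set P => fand
    (fall fun a => fall fun b => fall fun _ : a < b => fex fun F : Finset W2 =>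
      fall fun x => fall fun _ : x < a ∧ x ∉ F => fiff (meets (e a x)) (meets (e b x)))
    (fall fun A : W2 → Finset W2 → Set P => fimp
      (fall fun a => fex fun b => fex fun F => fand (fground (a < b)) (meets (A b F)))
      (fex fun b => fex fun F => fex fun c => fex fun G =>
        fand (fground (b < c)) (fand (meets (A b F)) (fand (meets (A c G))
          (fall fun x => fall fun _ : x < b =>
            fiff (fiff (meets (e b x)) (fground (x ∈ F)))
              (fiff (meets (e c x)) (fground (x ∈ G))))))))

end

/-! ### General facts -/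

section

variable {P : Type u} [Preorder P]

theorem mem_fex {ι : Sort v} {φ : ι → Set P} {p : P} :
    p ∈ fex φ ↔ ∀ q ≤ p, ∃ r ≤ q, ∃ i, r ∈ φ i := by
  simp only [fex, fnot, fall, Set.mem_ofPred_eq, not_forall, not_not]
  constructor
  · intro h q hq
    obtain ⟨i, r, hr, h'⟩ := h q hq
    exact ⟨r, hr, i, h'⟩
  · intro h q hq
    obtain ⟨r, hr, i, h'⟩ := h q hq
    exact ⟨i, r, hr, h'⟩

theorem mem_fimp {φ ψ : Set P} {p : P} :
    p ∈ fimp φ ψ ↔ ∀ q ≤ p, q ∈ φ → ∃ r ≤ q, r ∈ ψ := by
  simp only [fimp, fnot, fand, Set.mem_ofPred_eq, not_and, not_forall, not_not]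
  constructor
  · intro h q hq h'
    obtain ⟨r, hr, h''⟩ := h q hq h'
    exact ⟨r, hr, h''⟩
  · intro h q hq h'
    obtain ⟨r, hr, h''⟩ := h q hq h'
    exact ⟨r, hr, h''⟩

def Down (φ : Set P) : Prop := ∀ p ∈ φ, ∀ q ≤ p, q ∈ φ

theorem down_fnot (φ : Set P) : Down (fnot φ) :=
  fun _ hp _ hq r hr => hp r (hr.trans hq)

theorem down_fand {φ ψ : Set P} (h : Down φ) (h' : Down ψ) : Down (fand φ ψ) :=
  fun _ hp _ hq => ⟨h _ hp.1 _ hq, h' _ hp.2 _ hq⟩

theorem down_fall {ι : Sort v} {φ : ι → Set P} (h : ∀ i, Down (φ i)) : Down (fall φ) :=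
  fun _ hp _ hq i => h i _ (hp i) _ hq

theorem down_fex {ι : Sort v} (φ : ι → Set P) : Down (fex φ) := down_fnot _

theorem down_fimp (φ ψ : Set P) : Down (fimp φ ψ) := down_fnot _

theorem down_meets (N : Set P) : Down (meets N) :=
  fun _ hp _ hq r hr => hp r (hr.trans hq)

/-- a sentence which is forced as soon as it is forced densely below -/
theorem meets_of_dense {N : Set P} {p : P} (h : ∀ q ≤ p, ∃ r ≤ q, r ∈ meets N) :
    p ∈ meets N := by
  intro q hq
  obtain ⟨r, hr, h1⟩ := h q hq
  obtain ⟨s, hs, t, ht, hst⟩ := h1 r le_rfl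
  exact ⟨s, hs.trans hr, t, ht, hst⟩

theorem fimp_of {φ ψ : Set P} {p : P} (h : ∀ q ≤ p, q ∈ φ → q ∈ ψ) : p ∈ fimp φ ψ :=
  mem_fimp.2 fun q hq h' => ⟨q, le_rfl, h q hq h'⟩

/-- `p` decides the sentence `φ`, with truth value `v`. -/
def Dec (p : P) (φ : Set P) (v : Prop) : Prop := (v ∧ p ∈ φ) ∨ (¬ v ∧ p ∈ fnot φ)

end

/-! ### The forcing notion -/

/-- The conditions: an ordinal `ht < ω₂` and a coherent sequence of sets `e a` (`a ≤ ht`); the
values `e a x` for `a > ht` or `x ≥ a` are irrelevant. -/
structure Cd where
  ht : W2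
  e : W2 → W2 → Prop
  coh : ∀ a b, a < b → b ≤ ht → {x | x < a ∧ ¬ (e a x ↔ e b x)}.Finite

instance : Preorder Cd where
  le q p := p.ht ≤ q.ht ∧ ∀ a, a ≤ p.ht → ∀ x, x < a → (q.e a x ↔ p.e a x)
  le_refl p := ⟨le_rfl, fun _ _ _ _ => Iff.rfl⟩
  le_trans q p r h h' := ⟨h'.1.trans h.1, fun a ha x hx =>
    (h.2 a (ha.trans h'.1) x hx).trans (h'.2 a ha x hx)⟩

/-- The strong order: in addition the last sets agree. -/
def Str (q p : Cd) : Prop := q ≤ p ∧ ∀ x, x < p.ht → (q.e q.ht x ↔ p.e p.ht x)

/-- The generic sequence. -/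
def gen (b x : W2) : Set Cd := {p | b ≤ p.ht ∧ p.e b x}

/-- No extension of `t` puts into the named set a node of height above `a` which agrees up to `a`
with the modification at `F` of the last set of `t`. -/
def NoExt (A : W2 → Finset W2 → Set Cd) (t : Cd) (a : W2) (F : Finset W2) : Prop :=
  ∀ s, s ≤ t → ∀ c H, c ≤ s.ht → s ∈ meets (A c H) → a < c →
    ¬ ∀ x, x < a → ((s.e c x ↔ x ∈ H) ↔ (t.e t.ht x ↔ x ∈ F))

/-- Either a node of the named set lies below the modification at `F` of the last set of `t`, or
a proper part of that modification has no extension in the named set. -/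
def Alt (A : W2 → Finset W2 → Set Cd) (t : Cd) (F : Finset W2) : Prop :=
  (∃ b G, b ≤ t.ht ∧ t ∈ meets (A b G) ∧
    ∀ x, x < b → ((t.e b x ↔ x ∈ G) ↔ (t.e t.ht x ↔ x ∈ F))) ∨
  ∃ a, a ≤ t.ht ∧ NoExt A t a F

end Pool.Agent.Helper330.CSF
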