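import Pool.Agent.Helper330.CSF.Defs

set_option autoImplicit false
set_option linter.all false

/-!
# Forcing a coherent Souslin tree on `ω₂`

A sentence of the forcing language of a preordered set `P` of conditions is represented by the
set of the conditions which force it. Negation, conjunction and universal quantification are the
primitive connectives, with their usual forcing clauses; the other connectives are defined from
them classically. A name for a subset of a ground model set `X` is a map sending `x : X` to the
set of the conditions attached to `x`.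
-/

namespace Pool.Agent.Helper330.CSF
open Set


theorem bddTwo {ι : Type} (h : Cardinal.mk ι ≤ Cardinal.aleph 1) (f : ι → W2) :
    ∃ a : W2, ∀ i, f i < a := by
  by_contra hcon
  have hcon' : ∀ a : W2, ∃ i, a ≤ f i := by
    intro a
    by_contra h1
    exact hcon ⟨a, fun i => not_le.1 fun h2 => h1 ⟨i, h2⟩⟩
  have h2 : Cardinal.mk W2 = Cardinal.aleph 2 := Cardinal.mk_ord_toType _
  have hsucc : Order.succ (Cardinal.aleph 1) = Cardinal.aleph 2 := by
    rw [← Cardinal.aleph_succ, Order.succ_eq_add_one, one_add_one_eq_two]
  have hcov : (Set.univ : Set W2) = ⋃ i, Set.Iic (f i) := by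
    ext a
    simp only [Set.mem_univ, Set.mem_iUnion, Set.mem_Iic, true_iff]
    exact hcon' a
  have h1 : Cardinal.aleph0 ≤ Cardinal.aleph 1 := Cardinal.aleph0_le_aleph 1
  have hI : ∀ a : W2, Cardinal.mk (Set.Iic a) ≤ Cardinal.aleph 1 := by
    intro a
    have h3 : Cardinal.mk (Set.Iio a) < Cardinal.aleph 2 := by
      have := Cardinal.mk_Iio_lt a (by simp)
      simpa using this
    replace h3 : Cardinal.mk (Set.Iio a) ≤ Cardinal.aleph 1 :=
      Order.lt_succ_iff.1 (h3.trans_eq hsucc.symm)
    rw [← Set.Iio_insert]
    refine (Cardinal.mk_insert_le).trans ?_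
    refine (add_le_add h3 (Cardinal.one_le_aleph0.trans h1)).trans ?_
    rw [Cardinal.add_eq_self h1]
  have hle : Cardinal.mk W2 ≤ Cardinal.aleph 1 := by
    rw [← Cardinal.mk_univ, hcov]
    refine (Cardinal.mk_iUnion_le _).trans ?_
    refine (mul_le_mul' h (ciSup_le' fun i => hI (f i))).trans ?_
    rw [Cardinal.mul_eq_self h1]
  rw [h2, ← hsucc] at hle
  exact absurd hle (not_le.2 (Order.lt_succ _))

end Pool.Agent.Helper330.CSF
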