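import Pool.Agent.Helper330.CSF.Defs
import Pool.Agent.Helper330.CSF.P_bddTwo

set_option autoImplicit false
set_option linter.all false

/-!
# Forcing a coherent Souslin tree on `ω₂`

A sentence of the forcing language of a preordered set `P` of conditions is represented by the
set of the conditions which force it. Negation, conjunction and universal quantification are the
primitive connectives, with their usual forcing clauses; the other connectives are defined from
them classically. A name for a subset of a ground model set `X` is a map sending `x : X` to the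
set of the conditions attached to `x`.
-/

namespace Pool.Agent.Helper330.CSF
open Set


theorem ext (s : Cd) (g : W2 → Prop) (hg : {x | x < s.ht ∧ ¬ (g x ↔ s.e s.ht x)}.Finite)
    (a : W2) : ∃ r : Cd, r ≤ s ∧ s.ht < r.ht ∧ a < r.ht ∧ ∀ x, x < s.ht → (r.e r.ht x ↔ g x) := by
  classical
  obtain ⟨b, hb⟩ := bddTwo (ι := Bool) (by
    have h1 : Cardinal.mk Bool ≤ Cardinal.aleph0 := Cardinal.mk_le_aleph0
    exact h1.trans (Cardinal.aleph0_le_aleph 1)) (fun t => if t = true then a else s.ht)
  have hba : a < b := by simpa using hb true
  have hbs : s.ht < b := by simpa using hb false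
  have hnb : ¬ b ≤ s.ht := not_le.2 hbs
  refine ⟨⟨b, fun c x => if c ≤ s.ht then s.e c x else (x < s.ht ∧ g x), ?_⟩, ⟨hbs.le, ?_⟩, hbs,
    hba, ?_⟩
  · intro c c' hcc' hc'b
    by_cases h' : c' ≤ s.ht
    · have h : c ≤ s.ht := hcc'.le.trans h'
      simp only [if_pos h, if_pos h']
      exact s.coh c c' hcc' h'
    · by_cases h : c ≤ s.ht
      · simp only [if_pos h, if_neg h']
        have h1 : {x | x < c ∧ ¬ (s.e c x ↔ s.e s.ht x)}.Finite := by
          rcases h.lt_or_eq with hlt | heq
          · exact s.coh c s.ht hlt le_rfl
          · rw [heq]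
            refine Set.Finite.subset Set.finite_empty ?_
            rintro x ⟨_, hx⟩
            exact (hx Iff.rfl).elim
        refine (h1.union hg).subset ?_
        rintro x ⟨hx1, hx2⟩
        have hx3 : x < s.ht := lt_of_lt_of_le hx1 h
        by_cases h3 : (s.e c x ↔ s.e s.ht x)
        · right
          refine ⟨hx3, fun h4 => hx2 ?_⟩
          rw [h3, ← h4]
          exact ⟨fun h5 => ⟨hx3, h5⟩, fun h5 => h5.2⟩
        · left
          exact ⟨hx1, h3⟩
      · simp only [if_neg h, if_neg h']
        refine Set.Finite.subset Set.finite_empty ?_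
        rintro x ⟨_, hx⟩
        exact (hx (by simp)).elim
  · intro c hc x hx
    show (if c ≤ s.ht then s.e c x else (x < s.ht ∧ g x)) ↔ s.e c x
    rw [if_pos hc]
  · intro x hx
    show (if b ≤ s.ht then s.e b x else (x < s.ht ∧ g x)) ↔ g x
    rw [if_neg hnb]
    exact ⟨fun h => h.2, fun h => ⟨hx, h⟩⟩

end Pool.Agent.Helper330.CSF
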