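import Pool.Agent.Helper330.CSF.Defs
import Pool.Agent.Helper330.CSF.P_strRefl
import Pool.Agent.Helper330.CSF.P_ext

set_option autoImplicit false
set_option linter.all false

/-!
# Forcing a coherent Souslin tree on `ω₂`

A sentence of the forcing language of a preordered set `P` of conditions is represented by the
set of the conditions which force it. Negation, conjunction and universal quantification are the
primitive connectives, with their usual forcing clauses; the other connectives are defined from
them classically. A name for a subset of a ground model set `X` is a map sending `x : X` to the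
set of the conditions attached to `x`.
-/

namespace Pool.Agent.Helper330.CSF
open Set


theorem altDense (A : W2 → Finset W2 → Set Cd) (t : Cd) (F : Finset W2) :
    ∃ t' : Cd, Str t' t ∧ Alt A t' F := by
  classical
  by_cases h : NoExt A t t.ht F
  · exact ⟨t, strRefl t, Or.inr ⟨t.ht, le_rfl, h⟩⟩
  · unfold NoExt at h
    push Not at h
    obtain ⟨s, hst, c, H, hc, hs, htc, hx⟩ := h
    obtain ⟨g, hg⟩ : ∃ g : W2 → Prop, ∀ x, (x < c → (g x ↔ ((s.e c x ↔ x ∈ H) ↔ x ∈ F))) ∧
        (¬ x < c → (g x ↔ s.e s.ht x)) := by
      refine ⟨fun x => if x < c then ((s.e c x ↔ x ∈ H) ↔ x ∈ F) else s.e s.ht x, fun x => ?_⟩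
      constructor
      · intro h1
        simp only [h1, if_true]
      · intro h1
        simp only [h1, if_false]
    have hfin : {x | x < c ∧ ¬ (s.e c x ↔ s.e s.ht x)}.Finite := by
      rcases hc.eq_or_lt with h1 | h1
      · rw [h1]
        have : {x | x < s.ht ∧ ¬ (s.e s.ht x ↔ s.e s.ht x)} = ∅ := by
          apply Set.eq_empty_of_forall_notMem
          rintro x ⟨-, h2⟩
          exact h2 Iff.rfl
        rw [this]
        exact Set.finite_empty
      · exact s.coh c s.ht h1 le_rfl
    have hgf : {x | x < s.ht ∧ ¬ (g x ↔ s.e s.ht x)}.Finite := by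
      refine ((hfin.union H.finite_toSet).union F.finite_toSet).subset ?_
      rintro x ⟨h1, h2⟩
      by_contra h3
      simp only [Set.mem_union, not_or, Finset.mem_coe] at h3
      obtain ⟨⟨h3, h4⟩, h5⟩ := h3
      by_cases h6 : x < c
      · have h7 := (hg x).1 h6
        apply h2
        have h8 : s.e c x ↔ s.e s.ht x := by
          by_contra h8
          exact h3 ⟨h6, h8⟩
        rw [h7, ← h8]
        tauto
      · exact h2 ((hg x).2 h6)
    obtain ⟨r, hrs, hr1, -, hr3⟩ := ext s g hgf s.ht
    refine ⟨r, ⟨hrs.trans hst, ?_⟩, Or.inl ⟨c, H, hc.trans hrs.1, down_meets _ s hs r hrs, ?_⟩⟩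
    · intro x hxt
      have h1 : x < c := hxt.trans htc
      have h2 := (hg x).1 h1
      have h3 := hr3 x (h1.trans_le hc)
      have h4 := hx x hxt
      tauto
    · intro x hxc
      have h2 := (hg x).1 hxc
      have h3 := hr3 x (hxc.trans_le hc)
      have h5 := hrs.2 c hc x hxc
      tauto

end Pool.Agent.Helper330.CSF
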