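import Pool.Agent.Helper330.CSF.Defs

set_option autoImplicit false
set_option linter.all false

/-!
# Forcing a coherent Souslin tree on `ω₂`

A sentence of the forcing language of a preordered set `P` of conditions is represented by the
set of the conditions which force it. Negation, conjunction and universal quantification are the
primitive connectives, with their usual forcing clauses; the other connectives are defined from
them classically. A name for a subset of a ground model set `X` is a map sending `x : X` to the
set of the conditions attached to `x`.
-/

namespace Pool.Agent.Helper330.CSF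
open Set


theorem altDown {A : W2 → Finset W2 → Set Cd} {t t' : Cd} {F : Finset W2} (h : Str t' t)
    (hA : Alt A t F) : Alt A t' F := by
  obtain ⟨⟨h1, h2⟩, h3⟩ := h
  rcases hA with ⟨b, G, hb, hm, hx⟩ | ⟨a, ha, hN⟩
  · refine Or.inl ⟨b, G, hb.trans h1, down_meets _ _ hm _ ⟨h1, h2⟩, fun x hxb => ?_⟩
    rw [h2 b hb x hxb, h3 x (hxb.trans_le hb)]
    exact hx x hxb
  · refine Or.inr ⟨a, ha.trans h1, fun s hs c H hc hm hac hcon =>
      hN s (le_trans hs ⟨h1, h2⟩) c H hc hm hac fun x hx => ?_⟩
    have h4 := hcon x hx
    rw [h3 x (hx.trans_le ha)] at h4
    exact h4

end Pool.Agent.Helper330.CSF
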