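import Pool.Agent.Helper330.CSF.Defs

set_option autoImplicit false
set_option linter.all false

/-!
# Forcing a coherent Souslin tree on `ω₂`

A sentence of the forcing language of a preordered set `P` of conditions is represented by the
set of the conditions which force it. Negation, conjunction and universal quantification are the
primitive connectives, with their usual forcing clauses; the other connectives are defined from
them classically. A name for a subset of a ground model set `X` is a map sending `x : X` to the
set of the conditions attached to `x`.
-/

namespace Pool.Agent.Helper330.CSF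
open Set


theorem cardFin (a : W2) :
    Cardinal.mk {F : Finset W2 // ∀ x ∈ F, x < a} ≤ Cardinal.aleph 1 := by
  classical
  have h1 : Cardinal.mk {F : Finset W2 // ∀ x ∈ F, x < a} ≤ Cardinal.mk (Finset {x : W2 // x < a}) := by
    refine Cardinal.mk_le_of_injective (f := fun F : {F : Finset W2 // ∀ x ∈ F, x < a} => F.1.subtype (fun x => x < a)) ?_
    intro F G h
    apply Subtype.ext
    ext x
    have h' : F.1.subtype (fun x => x < a) = G.1.subtype (fun x => x < a) := h
    constructor
    · intro hx
      have : (⟨x, F.2 x hx⟩ : {x : W2 // x < a}) ∈ F.1.subtype (fun x => x < a) := Finset.mem_subtype.2 hx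
      rw [h'] at this
      exact Finset.mem_subtype.1 this
    · intro hx
      have : (⟨x, G.2 x hx⟩ : {x : W2 // x < a}) ∈ G.1.subtype (fun x => x < a) := Finset.mem_subtype.2 hx
      rw [← h'] at this
      exact Finset.mem_subtype.1 this
  refine h1.trans ?_
  have h2 : Cardinal.mk {x : W2 // x < a} < Cardinal.aleph 2 := Cardinal.mk_Iio_toType_ord_lt a
  have h3 : Cardinal.mk {x : W2 // x < a} ≤ Cardinal.aleph 1 := by
    have h4 : (Cardinal.aleph 2 : Cardinal.{0}) = Order.succ (Cardinal.aleph 1) := by
      rw [← Cardinal.aleph_succ]
      congr 1
      exact (Order.succ_eq_add_one (1 : Ordinal)).symm ▸ one_add_one_eq_two.symm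
    exact Order.lt_succ_iff.1 (h2.trans_eq h4)
  by_cases hfin : Finite {x : W2 // x < a}
  · have : Finite (Finset {x : W2 // x < a}) := by
      haveI := Fintype.ofFinite {x : W2 // x < a}
      infer_instance
    exact (Cardinal.mk_le_aleph0).trans (Cardinal.aleph0_le_aleph 1)
  · haveI : Infinite {x : W2 // x < a} := not_finite_iff_infinite.1 hfin
    rw [Cardinal.mk_finset_of_infinite]
    exact h3

end Pool.Agent.Helper330.CSF
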