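import Pool.Agent.Helper330.CSF.Defs
import Pool.Agent.Helper330.CSF.P_bddTwo

set_option autoImplicit false
set_option linter.all false

/-!
# Forcing a coherent Souslin tree on `ω₂`

A sentence of the forcing language of a preordered set `P` of conditions is represented by the
set of the conditions which force it. Negation, conjunction and universal quantification are the
primitive connectives, with their usual forcing clauses; the other connectives are defined from
them classically. A name for a subset of a ground model set `X` is a map sending `x : X` to the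
set of the conditions attached to `x`.
-/

namespace Pool.Agent.Helper330.CSF
open Set


theorem lower {ι : Type} [LinearOrder ι] [Nonempty ι] (hι : Cardinal.mk ι ≤ Cardinal.aleph 1)
    (F : ι → Cd) (hF : ∀ i j, i ≤ j → Str (F j) (F i)) :
    ∃ q : Cd, (∀ i, Str q (F i)) ∧ ∀ x, x < q.ht → ∃ i, x < (F i).ht := by
  classical
  obtain ⟨a0, ha0⟩ := bddTwo hι (fun i => (F i).ht)
  have C1 : ∀ i j a x, a ≤ (F i).ht → a ≤ (F j).ht → x < a →
      ((F i).e a x ↔ (F j).e a x) := by
    intro i j a x hi hj hx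
    rcases le_total i j with hij | hij
    · exact ((hF i j hij).1.2 a hi x hx).symm
    · exact (hF j i hij).1.2 a hj x hx
  have C2 : ∀ i j x, x < (F i).ht → x < (F j).ht →
      ((F i).e (F i).ht x ↔ (F j).e (F j).ht x) := by
    intro i j x hi hj
    rcases le_total i j with hij | hij
    · exact ((hF i j hij).2 x hi).symm
    · exact (hF j i hij).2 x hj
  obtain ⟨d, hd1, hd2⟩ : ∃ d : W2, (∀ i, (F i).ht ≤ d) ∧ ∀ a, a < d → ∃ i, a < (F i).ht := by
    have hne : ({a | ∀ i, (F i).ht ≤ a} : Set W2).Nonempty := ⟨a0, fun i => (ha0 i).le⟩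
    obtain ⟨d, hd, hmin⟩ := WellFounded.has_min (wellFounded_lt (α := W2))
      ({a | ∀ i, (F i).ht ≤ a} : Set W2) hne
    refine ⟨d, hd, fun a ha => ?_⟩
    by_contra hcon
    push Not at hcon
    exact hmin a hcon ha
  let qe : W2 → W2 → Prop := fun a x =>
    if h : ∃ i, a < (F i).ht then (F h.choose).e a x
    else (∃ i, x < (F i).ht ∧ (F i).e (F i).ht x)
  have h1 : ∀ i a x, a < (F i).ht → x < a → (qe a x ↔ (F i).e a x) := by
    intro i a x ha hx
    have h : ∃ i, a < (F i).ht := ⟨i, ha⟩
    have e : qe a x = (F h.choose).e a x := dif_pos h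
    rw [e]
    exact C1 _ _ a x h.choose_spec.le ha.le hx
  have h2 : ∀ i x, x < (F i).ht → (qe d x ↔ (F i).e (F i).ht x) := by
    intro i x hx
    have h : ¬ ∃ i, d < (F i).ht := by
      rintro ⟨j, hj⟩
      exact absurd (hd1 j) (not_le.2 hj)
    have e : qe d x = (∃ i, x < (F i).ht ∧ (F i).e (F i).ht x) := dif_neg h
    rw [e]
    constructor
    · rintro ⟨j, hj, hj'⟩
      exact (C2 j i x hj hx).1 hj'
    · intro h'
      exact ⟨i, hx, h'⟩
  have hcoh : ∀ a b, a < b → b ≤ d → {x | x < a ∧ ¬ (qe a x ↔ qe b x)}.Finite := by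
    intro a b hab hb
    rcases lt_or_eq_of_le hb with hb' | hb'
    · obtain ⟨i, hi⟩ := hd2 b hb'
      refine ((F i).coh a b hab hi.le).subset ?_
      rintro x ⟨hx, hx'⟩
      refine ⟨hx, fun h => hx' ?_⟩
      rw [h1 i a x (hab.trans hi) hx, h1 i b x hi (hx.trans hab)]
      exact h
    · obtain ⟨i, hi⟩ := hd2 a (hb' ▸ hab)
      refine ((F i).coh a (F i).ht hi le_rfl).subset ?_
      rintro x ⟨hx, hx'⟩
      refine ⟨hx, fun h => hx' ?_⟩
      rw [hb', h1 i a x hi hx, h2 i x (hx.trans hi)]
      exact h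
  refine ⟨⟨d, qe, hcoh⟩, fun i => ⟨⟨hd1 i, ?_⟩, ?_⟩, hd2⟩
  · intro a ha x hx
    show qe a x ↔ (F i).e a x
    rcases lt_or_eq_of_le ha with ha' | ha'
    · exact h1 i a x ha' hx
    · rcases lt_or_eq_of_le (hd1 i) with h3 | h3
      · obtain ⟨j, hj⟩ := hd2 (F i).ht h3
        rw [h1 j a x (ha'.trans_lt hj) hx]
        exact C1 j i a x (ha'.trans_lt hj).le ha hx
      · rw [ha', h3]
        have h4 := h2 i x (ha' ▸ hx)
        rw [h3] at h4
        exact h4
  · intro x hx
    exact h2 i x hx

end Pool.Agent.Helper330.CSF
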