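import Pool.Agent.Helper330.CSF.Defs

set_option autoImplicit false
set_option linter.all false

/-!
# Forcing a coherent Souslin tree on `ω₂`

A sentence of the forcing language of a preordered set `P` of conditions is represented by the
set of the conditions which force it. Negation, conjunction and universal quantification are the
primitive connectives, with their usual forcing clauses; the other connectives are defined from
them classically. A name for a subset of a ground model set `X` is a map sending `x : X` to the
set of the conditions attached to `x`.
-/

namespace Pool.Agent.Helper330.CSF
open Set


theorem strTrans {r q p : Cd} (h : Str r q) (h' : Str q p) : Str r p :=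
  ⟨h.1.trans h'.1, fun x hx =>
    (h.2 x (lt_of_lt_of_le hx h'.1.1)).trans (h'.2 x hx)⟩

end Pool.Agent.Helper330.CSF
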