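import Pool.Agent.Helper330.CSF.Defs
import Pool.Agent.Helper330.CSF.P_strRefl
import Pool.Agent.Helper330.CSF.P_strTrans
import Pool.Agent.Helper330.CSF.P_lower

set_option autoImplicit false
set_option linter.all false

/-!
# Forcing a coherent Souslin tree on `ω₂`

A sentence of the forcing language of a preordered set `P` of conditions is represented by the
set of the conditions which force it. Negation, conjunction and universal quantification are the
primitive connectives, with their usual forcing clauses; the other connectives are defined from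
them classically. A name for a subset of a ground model set `X` is a map sending `x : X` to the
set of the conditions attached to `x`.
-/

namespace Pool.Agent.Helper330.CSF
open Set


theorem meetW1 (E : W1 → Set Cd) (p : Cd) (hE : ∀ i, ∀ q ∈ E i, ∀ r, Str r q → r ∈ E i)
    (hd : ∀ i q, Str q p → ∃ r ∈ E i, Str r q) : ∃ q, Str q p ∧ ∀ i, q ∈ E i := by
  classical
  let Fn : (i : W1) → ((j : W1) → j < i → Cd) → Cd := fun i g =>
    if h : ∃ q, Str q p ∧ (∀ (j : W1) (hj : j < i), Str q (g j hj)) ∧ q ∈ E i then h.choose else p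
  let F : W1 → Cd := (wellFounded_lt : WellFounded ((· < ·) : W1 → W1 → Prop)).fix Fn
  have hF : ∀ i, F i = Fn i (fun j _ => F j) := fun i =>
    (wellFounded_lt : WellFounded ((· < ·) : W1 → W1 → Prop)).fix_eq Fn i
  have hcardW : Cardinal.mk W1 ≤ Cardinal.aleph 1 := by
    rw [Cardinal.mk_toType, Cardinal.card_ord]
  have inv : ∀ i, Str (F i) p ∧ (∀ j, j < i → Str (F i) (F j)) ∧ F i ∈ E i := by
    intro i
    induction i using (wellFounded_lt : WellFounded ((· < ·) : W1 → W1 → Prop)).induction with
    | _ i ih =>
    have hex : ∃ q, Str q p ∧ (∀ (j : W1) (_ : j < i), Str q (F j)) ∧ q ∈ E i := by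
      obtain ⟨q', hq'p, hq'⟩ : ∃ q', Str q' p ∧ ∀ j, j < i → Str q' (F j) := by
        by_cases hne : Nonempty {j : W1 // j < i}
        · obtain ⟨q, hq, -⟩ := lower (ι := {j : W1 // j < i})
            ((Cardinal.mk_subtype_le _).trans hcardW) (fun j => F j.1) (by
              intro a b hab
              rcases hab.eq_or_lt with h | h
              · rw [h]; exact strRefl _
              · exact (ih b.1 b.2).2.1 a.1 h)
          obtain ⟨j⟩ := hne
          exact ⟨q, strTrans (hq j) (ih j.1 j.2).1, fun k hk => hq ⟨k, hk⟩⟩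
        · exact ⟨p, strRefl p, fun j hj => absurd ⟨⟨j, hj⟩⟩ hne⟩
      obtain ⟨r, hr, hrq⟩ := hd i q' hq'p
      exact ⟨r, strTrans hrq hq'p, fun j hj => strTrans hrq (hq' j hj), hr⟩
    have e : F i = hex.choose := by
      rw [hF i]
      simp only [Fn]
      rw [dif_pos hex]
    rw [e]
    exact hex.choose_spec
  have hne : Nonempty W1 := by
    rw [← Cardinal.mk_ne_zero_iff, Cardinal.mk_toType, Cardinal.card_ord]
    exact (Cardinal.aleph_pos 1).ne'
  obtain ⟨q, hq, -⟩ := lower hcardW F (by
    intro i j hij
    rcases hij.eq_or_lt with h | h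
    · rw [h]; exact strRefl _
    · exact (inv j).2.1 i h)
  obtain ⟨i0⟩ := hne
  exact ⟨q, strTrans (hq i0) (inv i0).1, fun i => hE i _ (inv i).2.2 _ (hq i)⟩

end Pool.Agent.Helper330.CSF
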