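import Pool.Agent.Helper330.CSF.Defs
import Pool.Agent.Helper330.CSF.P_strRefl
import Pool.Agent.Helper330.CSF.P_meetW1

set_option autoImplicit false
set_option linter.all false

/-!
# Forcing a coherent Souslin tree on `ω₂`

A sentence of the forcing language of a preordered set `P` of conditions is represented by the
set of the conditions which force it. Negation, conjunction and universal quantification are the
primitive connectives, with their usual forcing clauses; the other connectives are defined from
them classically. A name for a subset of a ground model set `X` is a map sending `x : X` to the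
set of the conditions attached to `x`.
-/

namespace Pool.Agent.Helper330.CSF
open Set


theorem meetStar {ι : Type} (hι : Cardinal.mk ι ≤ Cardinal.aleph 1) (E : ι → Set Cd) (p : Cd)
    (hE : ∀ i, ∀ q ∈ E i, ∀ r, Str r q → r ∈ E i)
    (hd : ∀ i q, Str q p → ∃ r ∈ E i, Str r q) : ∃ q, Str q p ∧ ∀ i, q ∈ E i := by
  classical
  rcases isEmpty_or_nonempty ι with he | hne
  · exact ⟨p, strRefl p, fun i => he.elim i⟩
  · have hc : Cardinal.mk ι ≤ Cardinal.mk W1 := by
      have : Cardinal.mk W1 = Cardinal.aleph 1 := by
        show Cardinal.mk ((Cardinal.aleph 1 : Cardinal.{0}).ord.ToType) = _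
        rw [Cardinal.mk_toType, Cardinal.card_ord]
      rw [this]; exact hι
    obtain ⟨f⟩ := hc
    obtain ⟨q, hq, h⟩ := meetW1 (fun w => E (Function.invFun f w)) p
      (fun i q hq r hr => hE _ q hq r hr) (fun i q hq => hd _ q hq)
    refine ⟨q, hq, fun i => ?_⟩
    have := h (f i)
    simpa only [Function.leftInverse_invFun f.injective i] using this

end Pool.Agent.Helper330.CSF
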