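import Pool.Agent.Helper330.CSF.Defs
import Pool.Agent.Helper330.CSF.P_meetStar
import Pool.Agent.Helper330.CSF.P_altDown
import Pool.Agent.Helper330.CSF.P_altDense
import Pool.Agent.Helper330.CSF.P_cardFin

set_option autoImplicit false
set_option linter.all false

/-!

A sentence of the forcing language of a preordered set `P` of conditions is represented by the
set of the conditions which force it. Negation, conjunction and universal quantification are the
primitive connectives, with their usual forcing clauses; the other connectives are defined from
them classically. A name for a subset of a ground model set `X` is a map sending `x : X` to the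
set of the conditions attached to `x`.
-/

namespace Pool.Agent.Helper330.CSF
open Set


theorem altAll (A : W2 → Finset W2 → Set Cd) (p : Cd) :
    ∃ q : Cd, Str q p ∧ ∀ F : Finset W2, (∀ x ∈ F, x < p.ht) → Alt A q F := by
  obtain ⟨q, hq, h⟩ := meetStar (cardFin p.ht)
    (fun F : {F : Finset W2 // ∀ x ∈ F, x < p.ht} => {q : Cd | Alt A q F.1}) p
    (fun _ _ hq _ hr => altDown hr hq)
    (fun i q _ => by
      obtain ⟨t', h1, h2⟩ := altDense A q i.1
      exact ⟨t', h2, h1⟩)
  exact ⟨q, hq, fun F hF => h ⟨F, hF⟩⟩

end Pool.Agent.Helper330.CSF

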