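import Pool.Agent.Helper330.CSF.Defs
import Pool.Agent.Helper330.CSF.P_strRefl
import Pool.Agent.Helper330.CSF.P_strTrans
import Pool.Agent.Helper330.CSF.P_lower
import Pool.Agent.Helper330.CSF.P_altDown
import Pool.Agent.Helper330.CSF.P_altAll

set_option autoImplicit false
set_option linter.all false

/-!
# Forcing a coherent Souslin tree on `ω₂`

A sentence of the forcing language of a preordered set `P` of conditions is represented by the
set of the conditions which force it. Negation, conjunction and universal quantification are the
primitive connectives, with their usual forcing clauses; the other connectives are defined from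
them classically. A name for a subset of a ground model set `X` is a map sending `x : X` to the
set of the conditions attached to `x`.
-/

namespace Pool.Agent.Helper330.CSF
open Set


theorem altFull (A : W2 → Finset W2 → Set Cd) (p : Cd) :
    ∃ q : Cd, Str q p ∧ ∀ F : Finset W2, (∀ x ∈ F, x < q.ht) → Alt A q F := by
  classical
  choose f hf hfA using altAll A
  let Q : ℕ → Cd := fun n => Nat.rec p (fun _ c => f c) n
  have hQ0 : Q 0 = p := rfl
  have hQs : ∀ n, Q (n + 1) = f (Q n) := fun n => rfl
  have hmono : ∀ i j, i ≤ j → Str (Q j) (Q i) := by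
    intro i j hij
    induction j, hij using Nat.le_induction with
    | base => exact strRefl _
    | succ j _ ih => exact strTrans (by rw [hQs]; exact hf (Q j)) ih
  have hι : Cardinal.mk ℕ ≤ Cardinal.aleph 1 := by
    rw [Cardinal.mk_nat]
    exact Cardinal.aleph0_le_aleph 1
  obtain ⟨q, hq, hlt⟩ := lower hι Q hmono
  refine ⟨q, hq 0, fun F hF => ?_⟩
  have hex : ∀ F : Finset W2, (∀ x ∈ F, x < q.ht) → ∃ n, ∀ x ∈ F, x < (Q n).ht := by
    intro F
    induction F using Finset.induction_on with
    | empty => exact fun _ => ⟨0, by simp⟩
    | insert a F ha ih =>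
      intro h
      obtain ⟨n, hn⟩ := ih fun x hx => h x (Finset.mem_insert_of_mem hx)
      obtain ⟨m, hm⟩ := hlt a (h a (Finset.mem_insert_self _ _))
      refine ⟨max n m, fun x hx => ?_⟩
      rcases Finset.mem_insert.mp hx with rfl | hx
      · exact lt_of_lt_of_le hm (hmono m _ (le_max_right _ _)).1.1
      · exact lt_of_lt_of_le (hn x hx) (hmono n _ (le_max_left _ _)).1.1
  obtain ⟨n, hn⟩ := hex F hF
  exact altDown (hq (n + 1)) (by rw [hQs]; exact hfA (Q n) F hn)

end Pool.Agent.Helper330.CSF
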