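import Pool.Agent.Helper330.CSF.Defs
import Pool.Agent.Helper330.CSF.P_ext
import Pool.Agent.Helper330.CSF.P_altFull

set_option autoImplicit false
set_option linter.all false

/-!
# Forcing a coherent Souslin tree on `ω₂`

A sentence of the forcing language of a preordered set `P` of conditions is represented by the
set of the conditions which force it. Negation, conjunction and universal quantification are the
primitive connectives, with their usual forcing clauses; the other connectives are defined from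
them classically. A name for a subset of a ground model set `X` is a map sending `x : X` to the
set of the conditions attached to `x`.
-/

namespace Pool.Agent.Helper330.CSF
open Set


theorem catch_ (A : W2 → Finset W2 → Set Cd) (p : Cd)
    (hp : ∀ q, q ≤ p → ∀ a, ∃ r, r ≤ q ∧ ∃ b F, a < b ∧ r ∈ meets (A b F)) :
    ∃ s, s ≤ p ∧ ∃ b F c G, b < c ∧ c ≤ s.ht ∧ s ∈ meets (A b F) ∧ s ∈ meets (A c G) ∧
      ∀ x, x < b → ((s.e b x ↔ x ∈ F) ↔ (s.e c x ↔ x ∈ G)) := by
  classical
  obtain ⟨t, htp, hAlt⟩ := altFull A p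
  obtain ⟨r, hrt, c, H, hac, hr⟩ := hp t htp.1 t.ht
  obtain ⟨s, hsr, -, hcs, -⟩ := ext r (r.e r.ht) (by
    have : {x | x < r.ht ∧ ¬ (r.e r.ht x ↔ r.e r.ht x)} = (∅ : Set W2) := by
      ext x; simp
    rw [this]; exact Set.finite_empty) c
  have hst : s ≤ t := hsr.trans hrt
  have hsm : s ∈ meets (A c H) := down_meets _ _ hr _ hsr
  have hse : ∀ a, a ≤ t.ht → ∀ x, x < a → (s.e a x ↔ t.e a x) := hst.2
  have hfin : {x | x < t.ht ∧ (t.e t.ht x ↔ (s.e c x ↔ x ∈ H))}.Finite := by
    refine ((s.coh t.ht c hac hcs.le).union H.finite_toSet).subset ?_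
    intro x hx
    by_cases hxH : x ∈ H
    · right; exact hxH
    · left
      refine ⟨hx.1, fun h => ?_⟩
      have h1 := hse t.ht le_rfl x hx.1
      have h2 := hx.2
      tauto
  have hF : ∀ x, x < t.ht → ((t.e t.ht x ↔ x ∈ hfin.toFinset) ↔ (s.e c x ↔ x ∈ H)) := by
    intro x hx
    have : x ∈ hfin.toFinset ↔ (x < t.ht ∧ (t.e t.ht x ↔ (s.e c x ↔ x ∈ H))) := by
      rw [Set.Finite.mem_toFinset]
      exact Iff.rfl
    rw [this]
    tauto
  have hFlt : ∀ x ∈ hfin.toFinset, x < t.ht := by
    intro x hx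
    rw [Set.Finite.mem_toFinset] at hx
    exact hx.1
  rcases hAlt hfin.toFinset hFlt with ⟨b, G, hb, htm, hx⟩ | ⟨a, ha, hno⟩
  · refine ⟨s, hst.trans htp.1, b, G, c, H, lt_of_le_of_lt hb hac, hcs.le,
      down_meets _ _ htm _ hst, hsm, fun x hxb => ?_⟩
    have h1 := hse b hb x hxb
    have h2 := hx x hxb
    have h3 := hF x (lt_of_lt_of_le hxb hb)
    rw [h1, h2, h3]
  · exact absurd (fun x hxa => (hF x (lt_of_lt_of_le hxa ha)).symm)
      (hno s hst c H hcs.le hsm (lt_of_le_of_lt ha hac))

end Pool.Agent.Helper330.CSF
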