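import Pool.Agent.Helper330.CSF.Defs

set_option autoImplicit false
set_option linter.all false

/-!
# Forcing a coherent Souslin tree on `ω₂`

A sentence of the forcing language of a preordered set `P` of conditions is represented by the
set of the conditions which force it. Negation, conjunction and universal quantification are the
primitive connectives, with their usual forcing clauses; the other connectives are defined from
them classically. A name for a subset of a ground model set `X` is a map sending `x : X` to the
set of the conditions attached to `x`.
-/

namespace Pool.Agent.Helper330.CSF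
open Set


theorem decGen {p : Cd} {b x : W2} (hb : b ≤ p.ht) (hx : x < b) :
    Dec p (meets (gen b x)) (p.e b x) := by
  by_cases hv : p.e b x
  · refine Or.inl ⟨hv, ?_⟩
    intro q hq
    exact ⟨q, le_rfl, p, ⟨hb, hv⟩, hq⟩
  · refine Or.inr ⟨hv, ?_⟩
    intro q hq hm
    obtain ⟨r, hr, s, hs, hrs⟩ := hm q le_rfl
    have h1 : r.e b x ↔ s.e b x := hrs.2 b hs.1 x hx
    have h2 : r.e b x ↔ p.e b x := (hr.trans hq).2 b hb x hx
    exact hv (h2.1 (h1.2 hs.2))

end Pool.Agent.Helper330.CSF
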