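import Pool.Agent.Helper330.CSF.Defs

set_option autoImplicit false
set_option linter.all false

/-!
# Forcing a coherent Souslin tree on `ω₂`

A sentence of the forcing language of a preordered set `P` of conditions is represented by the
set of the conditions which force it. Negation, conjunction and universal quantification are the
primitive connectives, with their usual forcing clauses; the other connectives are defined from
them classically. A name for a subset of a ground model set `X` is a map sending `x : X` to the
set of the conditions attached to `x`.
-/

namespace Pool.Agent.Helper330.CSF
open Set


theorem decGround {P : Type} [Preorder P] (p : P) (h : Prop) : Dec p (fground h) h := by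
  by_cases hh : h
  · exact Or.inl ⟨hh, hh⟩
  · exact Or.inr ⟨hh, fun q _ hq => hh hq⟩

end Pool.Agent.Helper330.CSF
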