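import Pool.Agent.Helper330.CSF.Defs
import Pool.Agent.Helper330.CSF.P_ext
import Pool.Agent.Helper330.CSF.P_decGround
import Pool.Agent.Helper330.CSF.P_decIff
import Pool.Agent.Helper330.CSF.P_decGen
import Pool.Agent.Helper330.CSF.P_catch_

set_option autoImplicit false
set_option linter.all false

/-!
# Forcing a coherent Souslin tree on `ω₂`

A sentence of the forcing language of a preordered set `P` of conditions is represented by the
set of the conditions which force it. Negation, conjunction and universal quantification are the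
primitive connectives, with their usual forcing clauses; the other connectives are defined from
them classically. A name for a subset of a ground model set `X` is a map sending `x : X` to the
set of the conditions attached to `x`.
-/

namespace Pool.Agent.Helper330.CSF
open Set


theorem holds_dec {P : Type} [Preorder P] {p : P} {φ : Set P} {v : Prop} (h : Dec p φ v) (hv : v) :
    p ∈ φ := by
  rcases h with h | h
  · exact h.2
  · exact absurd hv h.1

theorem holds_down_iff {P : Type} [Preorder P] (φ ψ : Set P) : Down (fiff φ ψ) :=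
  down_fand (down_fimp _ _) (down_fimp _ _)

theorem holds_down_ground {P : Type} [Preorder P] (h : Prop) : Down (fground h : Set P) :=
  fun _ h _ _ => h

theorem holds_coh (q : Cd) : q ∈ (fall fun a => fall fun b => fall fun _ : a < b => fex fun F : Finset W2 =>
      fall fun x => fall fun _ : x < a ∧ x ∉ F => fiff (meets (gen a x)) (meets (gen b x)) : Set Cd) := by
  intro a b hab
  refine mem_fex.2 fun r hr => ?_
  have hfin : {x | x < r.ht ∧ ¬ (r.e r.ht x ↔ r.e r.ht x)}.Finite := by
    convert Set.finite_empty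
    ext x
    constructor
    · rintro ⟨_, h⟩
      exact absurd Iff.rfl h
    · intro h
      exact absurd h (Set.notMem_empty x)
  obtain ⟨s, hs1, hs2, hs3, hs4⟩ := ext r (r.e r.ht) hfin b
  refine ⟨s, hs1, (s.coh a b hab hs3.le).toFinset, ?_⟩
  intro x hx
  have hiff : s.e a x ↔ s.e b x := by
    by_contra hcon
    exact hx.2 ((Set.Finite.mem_toFinset _).2 ⟨hx.1, hcon⟩)
  exact holds_dec (decIff (down_meets _) (down_meets _) (decGen (hab.le.trans hs3.le) hx.1)
    (decGen hs3.le (hx.1.trans hab))) hiff

theorem holds (p : Cd) : p ∈ CoherentSouslinHolds Cd := by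
  refine mem_fex.2 fun q _ => ⟨q, le_rfl, gen, holds_coh q, ?_⟩
  intro A
  refine mem_fimp.2 fun r hr h => ?_
  obtain ⟨s, hs, b, F, c, G, hbc, hc, hb', hc', hag⟩ := catch_ A r (by
    intro q' hq' a
    obtain ⟨r1, hr1, b, hb⟩ := mem_fex.1 (h a) q' hq'
    obtain ⟨r2, hr2, F, hF⟩ := mem_fex.1 hb r1 le_rfl
    exact ⟨r2, hr2.trans hr1, b, F, hF.1, hF.2⟩)
  refine ⟨s, hs, ?_⟩
  refine mem_fex.2 fun s1 hs1 => ⟨s1, le_rfl, b, ?_⟩
  refine mem_fex.2 fun s2 hs2 => ⟨s2, le_rfl, F, ?_⟩
  refine mem_fex.2 fun s3 hs3 => ⟨s3, le_rfl, c, ?_⟩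
  refine mem_fex.2 fun s4 hs4 => ⟨s4, le_rfl, G, ?_⟩
  have hle : s4 ≤ s := ((hs4.trans hs3).trans hs2).trans hs1
  refine ⟨hbc, down_meets _ _ hb' _ hle, down_meets _ _ hc' _ hle, ?_⟩
  intro x hx
  have hbs : b ≤ s.ht := hbc.le.trans hc
  have e1 : s4.e b x ↔ s.e b x := hle.2 b hbs x hx
  have e2 : s4.e c x ↔ s.e c x := hle.2 c hc x (hx.trans hbc)
  have hd1 := decIff (down_meets _) (holds_down_ground _)
    (decGen (p := s4) (hbs.trans hle.1) hx) (decGround s4 (x ∈ F))
  have hd2 := decIff (down_meets _) (holds_down_ground _)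
    (decGen (p := s4) (hc.trans hle.1) (hx.trans hbc)) (decGround s4 (x ∈ G))
  refine holds_dec (decIff (holds_down_iff _ _) (holds_down_iff _ _) hd1 hd2) ?_
  rw [e1, e2]
  exact hag x hx

end Pool.Agent.Helper330.CSF
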