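import Pool.Agent.Helper330.CSF.Defs
import Pool.Agent.Helper330.CSF.P_ext

set_option autoImplicit false
set_option linter.all false

/-!
# Forcing a coherent Souslin tree on `ω₂`

A sentence of the forcing language of a preordered set `P` of conditions is represented by the
set of the conditions which force it. Negation, conjunction and universal quantification are the
primitive connectives, with their usual forcing clauses; the other connectives are defined from
them classically. A name for a subset of a ground model set `X` is a map sending `x : X` to the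
set of the conditions attached to `x`.
-/

namespace Pool.Agent.Helper330.CSF
open Set


theorem starExt {q p : Cd} (h : q ≤ p) : ∃ r : Cd, r ≤ q ∧ Str r p := by
  classical
  obtain ⟨g, hgdef⟩ : ∃ g : W2 → Prop, g = fun x => (x < p.ht ∧ p.e p.ht x) ∨
      (¬ x < p.ht ∧ q.e q.ht x) := ⟨_, rfl⟩
  have hg1 : ∀ x, x < p.ht → (g x ↔ p.e p.ht x) := by
    intro x hx
    rw [hgdef]
    constructor
    · rintro (h1 | h1)
      · exact h1.2
      · exact absurd hx h1.1
    · intro h1
      exact Or.inl ⟨hx, h1⟩
  have hg2 : ∀ x, ¬ x < p.ht → (g x ↔ q.e q.ht x) := by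
    intro x hx
    rw [hgdef]
    constructor
    · rintro (h1 | h1)
      · exact absurd h1.1 hx
      · exact h1.2
    · intro h1
      exact Or.inr ⟨hx, h1⟩
  have hfin : {x | x < q.ht ∧ ¬ (g x ↔ q.e q.ht x)}.Finite := by
    rcases lt_or_eq_of_le h.1 with hlt | heq
    · apply (q.coh p.ht q.ht hlt le_rfl).subset
      intro x hx
      have hx1 := hx.1
      have hx2 := hx.2
      by_cases hxp : x < p.ht
      · refine ⟨hxp, ?_⟩
        intro hcon
        apply hx2
        rw [hg1 x hxp, ← hcon]
        exact (h.2 p.ht le_rfl x hxp).symm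
      · exact absurd (hg2 x hxp) hx2
    · have hempty : {x | x < q.ht ∧ ¬ (g x ↔ q.e q.ht x)} = ∅ := by
        rw [Set.eq_empty_iff_forall_notMem]
        intro x hx
        have hx1 := hx.1
        have hx2 := hx.2
        have hxp : x < p.ht := by rw [heq]; exact hx1
        apply hx2
        rw [hg1 x hxp, ← h.2 p.ht le_rfl x hxp, heq]
      rw [hempty]
      exact Set.finite_empty
  obtain ⟨r, hr1, hr2, _, hr3⟩ := ext q g hfin p.ht
  refine ⟨r, hr1, le_trans hr1 h, ?_⟩
  intro x hx
  rw [hr3 x (lt_of_lt_of_le hx h.1)]
  exact hg1 x hx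

end Pool.Agent.Helper330.CSF
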