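import Pool.Agent.Helper330.CSF.Defs
import Pool.Agent.Helper330.CSF.P_starExt
import Pool.Agent.Helper330.CSF.P_meetStar

set_option autoImplicit false
set_option linter.all false

/-!
# Forcing a coherent Souslin tree on `ω₂`

A sentence of the forcing language of a preordered set `P` of conditions is represented by the
set of the conditions which force it. Negation, conjunction and universal quantification are the
primitive connectives, with their usual forcing clauses; the other connectives are defined from
them classically. A name for a subset of a ground model set `X` is a map sending `x : X` to the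
set of the conditions attached to `x`.
-/

namespace Pool.Agent.Helper330.CSF
open Set


theorem meetDown {ι : Type} (hι : Cardinal.mk ι ≤ Cardinal.aleph 1) (E : ι → Set Cd) (p : Cd)
    (hE : ∀ i, Down (E i)) (hd : ∀ i q, q ≤ p → ∃ r ∈ E i, r ≤ q) :
    ∃ q, q ≤ p ∧ ∀ i, q ∈ E i := by
  obtain ⟨q, hq, hqE⟩ := meetStar hι E p (fun i q hq r hr => hE i q hq r hr.1) (by
    intro i q hq
    obtain ⟨r, hr, hrq⟩ := hd i q hq.1
    obtain ⟨r', hr', hs⟩ := starExt hrq
    exact ⟨r', hE i r hr r' hr', hs⟩)
  exact ⟨q, hq.1, hqE⟩

end Pool.Agent.Helper330.CSF
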