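import Pool.Agent.Helper330.CSF.Defs
import Pool.Agent.Helper330.CSF.P_bddOne
import Pool.Agent.Helper330.CSF.P_meetDown

set_option autoImplicit false
set_option linter.all false

/-!
# Forcing a coherent Souslin tree on `ω₂`

A sentence of the forcing language of a preordered set `P` of conditions is represented by the
set of the conditions which force it. Negation, conjunction and universal quantification are the
primitive connectives, with their usual forcing clauses; the other connectives are defined from
them classically. A name for a subset of a ground model set `X` is a map sending `x : X` to the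
set of the conditions attached to `x`.
-/

namespace Pool.Agent.Helper330.CSF
open Set


theorem omegaOne (p : Cd) : p ∈ OmegaOnePreserved Cd := by
  intro q _ hq
  obtain ⟨r, _, R, hR, hR'⟩ := mem_fex.1 hq q le_rfl
  obtain ⟨t, htr, ht⟩ := meetDown (ι := ℕ)
    (by rw [Cardinal.mk_nat]; exact Cardinal.aleph0_le_aleph 1)
    (fun n => {t | ∃ a, t ∈ meets (R n a)}) r
    (by
      rintro n s ⟨a, ha⟩ u hu
      exact ⟨a, down_meets _ s ha u hu⟩)
    (by
      intro n s hs
      obtain ⟨u, hu, a, ha⟩ := mem_fex.1 (hR.1 n) s hs
      exact ⟨u, ⟨a, ha⟩, hu⟩)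
  choose g hg using ht
  obtain ⟨b, hb⟩ := bddOne g
  obtain ⟨t', ht', n, hn⟩ := mem_fex.1 (hR' b) t htr
  obtain ⟨u, _, hu⟩ := mem_fimp.1 (hR.2 n (g n) b) t' (ht'.trans htr)
    ⟨down_meets _ t (hg n) t' ht', hn⟩
  have h1 : g n = b := hu
  exact absurd h1 (hb n).ne

end Pool.Agent.Helper330.CSF
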