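import Pool.Agent.Helper330.CSF.Defs
import Pool.Agent.Helper330.CSF.P_bddTwo
import Pool.Agent.Helper330.CSF.P_meetDown

set_option autoImplicit false
set_option linter.all false

/-!
# Forcing a coherent Souslin tree on `ω₂`

A sentence of the forcing language of a preordered set `P` of conditions is represented by the
set of the conditions which force it. Negation, conjunction and universal quantification are the
primitive connectives, with their usual forcing clauses; the other connectives are defined from
them classically. A name for a subset of a ground model set `X` is a map sending `x : X` to the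
set of the conditions attached to `x`.
-/

namespace Pool.Agent.Helper330.CSF
open Set


theorem omegaTwo (p : Cd) : p ∈ OmegaTwoPreserved Cd := by
  have hι : Cardinal.mk W1 ≤ Cardinal.aleph 1 := by
    exact le_of_eq (by simp [W1])
  intro q _ hq
  obtain ⟨r, _, R, hR⟩ := mem_fex.1 hq q le_rfl
  have hf : r ∈ IsFun R := hR.1
  have ho : r ∈ IsOnto R := hR.2
  obtain ⟨t, ht, hE⟩ := meetDown (ι := W1) hι (fun n => {t | ∃ a, t ∈ meets (R n a)}) r
    (by
      rintro n s ⟨a, ha⟩ s' hs'
      exact ⟨a, down_meets _ s ha s' hs'⟩)
    (by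
      intro n q' hq'
      obtain ⟨r', hr', y, hy⟩ := mem_fex.1 (hf.1 n) q' hq'
      exact ⟨r', ⟨y, hy⟩, hr'⟩)
  choose g hg using hE
  obtain ⟨b, hb⟩ := bddTwo hι g
  obtain ⟨t', ht', n, hn⟩ := mem_fex.1 (ho b) t ht
  obtain ⟨s, _, hs⟩ := mem_fimp.1 (hf.2 n (g n) b) t' (ht'.trans ht)
    ⟨down_meets _ t (hg n) t' ht', hn⟩
  exact (hb n).ne hs

end Pool.Agent.Helper330.CSF
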